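import Pool.Agent.Lib.MP_42948a_nt.TF.A1
import Pool.Agent.Lib.MP_42948a_nt.EK.TI2b

/-!
# Multiples of `m` in a window against a kernel, only the characters with `b χ ≠ 0`

`H(m) = ∑_{n ∈ Ioc N1 N2, m ∣ n, (n,d)=1} 1/n * β (x (ucl n)⁻¹)`; `|m H(m) - (φ/d)(log N2 - log N1)| ≤ 6 τ(d)/(N1/m) + Q ρ`; sums with weights `ω m`.
-/

namespace Pool.Agent.Lib.MP_42948a_nt.SH

open Finset Pool.Agent.Lib.MP_42948a_nt.OA Pool.Agent.Lib.MP_42948a_nt.TQ Pool.Agent.Lib.MP_42948a_nt.TF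

private theorem A_inv_coprime (d : ℕ) [NeZero d] (A B : ℕ) (hA : 1 ≤ A) (hAB : A ≤ B) :
    |∑ n ∈ (Ioc A B).filter (fun n : ℕ => n.Coprime d), 1 / (n : ℝ) -
      (Fintype.card (ZMod d)ˣ : ℝ) / d * (Real.log B - Real.log A)| ≤ 4 * (d.divisors.card : ℝ) / A := by
  have h1 := EK.hc_bound d (Nat.pos_of_ne_zero (NeZero.ne d)) A B hA hAB
  have hA0 : (0 : ℝ) < A := by exact_mod_cast hA
  have hB0 : (0 : ℝ) < B := by exact_mod_cast (hA.trans hAB)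
  rw [Real.log_div hB0.ne' hA0.ne'] at h1
  rw [ZMod.card_units_eq_totient]
  exact h1

private theorem c3_log {N m : ℕ} (hm0 : 1 ≤ m) (h1 : 1 ≤ N / m) :
    0 ≤ Real.log N - Real.log m - Real.log ((N / m : ℕ) : ℝ) ∧
    Real.log N - Real.log m - Real.log ((N / m : ℕ) : ℝ) ≤ 1 / ((N / m : ℕ) : ℝ) := by
  have hM : (0 : ℝ) < ((N / m : ℕ) : ℝ) := by exact_mod_cast h1
  have hm : (0 : ℝ) < (m : ℝ) := by exact_mod_cast hm0
  have h2 : ((N / m : ℕ) : ℝ) * m ≤ N := by exact_mod_cast Nat.div_mul_le_self N m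
  have h3 : (N : ℝ) < m * (((N / m : ℕ) : ℝ) + 1) := by exact_mod_cast Nat.lt_mul_div_succ N hm0
  have hN : (0 : ℝ) < N := lt_of_lt_of_le (mul_pos hM hm) h2
  have h4 : Real.log N - Real.log m = Real.log (N / m) := (Real.log_div hN.ne' hm.ne').symm
  rw [h4]
  constructor
  · have h5 := Real.log_le_log hM ((le_div_iff₀ hm).2 h2)
    linarith
  · have h5 : Real.log ((N : ℝ) / m) ≤ Real.log (((N / m : ℕ) : ℝ) + 1) :=
      Real.log_le_log (div_pos hN hm) ((div_le_iff₀ hm).2 (by linarith [mul_comm (m : ℝ) (((N / m : ℕ) : ℝ) + 1)]))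
    have h6 : Real.log ((((N / m : ℕ) : ℝ) + 1) / ((N / m : ℕ) : ℝ)) ≤
        (((N / m : ℕ) : ℝ) + 1) / ((N / m : ℕ) : ℝ) - 1 := Real.log_le_sub_one_of_pos (by positivity)
    rw [Real.log_div (by positivity) hM.ne'] at h6
    have h7 : (((N / m : ℕ) : ℝ) + 1) / ((N / m : ℕ) : ℝ) - 1 = 1 / ((N / m : ℕ) : ℝ) := by
      field_simp
      ring
    rw [h7] at h6
    linarith

private theorem c3_reindex {d N1 N2 m : ℕ} (hm : m.Coprime d) (hm0 : 1 ≤ m) (f : ℕ → ℝ) :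
    ∑ n ∈ (Ioc N1 N2).filter (fun n : ℕ => m ∣ n ∧ n.Coprime d), f n =
      ∑ k ∈ (Ioc (N1 / m) (N2 / m)).filter (fun k : ℕ => k.Coprime d), f (m * k) := by
  symm
  refine Finset.sum_bij (fun k _ => m * k) ?_ ?_ ?_ ?_
  · intro k hk
    rw [mem_filter, mem_Ioc] at hk ⊢
    obtain ⟨⟨h1, h2⟩, h3⟩ := hk
    refine ⟨⟨?_, ?_⟩, Dvd.intro _ rfl, Nat.Coprime.mul_left hm h3⟩
    · rw [mul_comm]
      exact (Nat.div_lt_iff_lt_mul hm0).1 h1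
    · rw [mul_comm]
      exact (Nat.le_div_iff_mul_le hm0).1 h2
  · intro a _ b _ h
    exact Nat.eq_of_mul_eq_mul_left hm0 h
  · intro n hn
    rw [mem_filter, mem_Ioc] at hn
    obtain ⟨⟨h1, h2⟩, ⟨k, rfl⟩, h3⟩ := hn
    refine ⟨k, ?_, rfl⟩
    rw [mem_filter, mem_Ioc]
    exact ⟨⟨(Nat.div_lt_iff_lt_mul hm0).2 (by rw [mul_comm]; exact h1),
      (Nat.le_div_iff_mul_le hm0).2 (by rw [mul_comm]; exact h2)⟩, Nat.Coprime.coprime_mul_left h3⟩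
  · intro k _
    rfl

private theorem c3_conj {d : ℕ} [NeZero d] (χ : DirichletCharacter ℂ d) (A B : ℕ) :
    (starRingEnd ℂ) (∑ k ∈ Ioc A B, ((1 / (k : ℝ) : ℝ) : ℂ) * χ (k : ZMod d)) =
      ∑ k ∈ (Ioc A B).filter (fun k : ℕ => k.Coprime d), ((1 / (k : ℝ) : ℝ) : ℂ) * ev χ (ucl d k)⁻¹ := by
  rw [map_sum, Finset.sum_filter]
  refine Finset.sum_congr rfl fun k _ => ?_
  by_cases hk : k.Coprime d
  · rw [if_pos hk, map_mul, Complex.conj_ofReal, ← conj_ev]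
    unfold ev
    rw [ucl_val hk]
  · have h1 : ¬ IsUnit (k : ZMod d) := fun h => hk ((ZMod.isUnit_iff_coprime k d).1 h)
    rw [if_neg hk, χ.map_nonunit h1, mul_zero, map_zero]

private theorem c3_exp {d : ℕ} [NeZero d] {X : Finset (DirichletCharacter ℂ d)} {η Q : ℝ} {β : (ZMod d)ˣ → ℝ}
    {b : DirichletCharacter ℂ d → ℝ} (hK : Ker X η Q β b) (y : (ZMod d)ˣ) (A B : ℕ) :
    ((∑ k ∈ (Ioc A B).filter (fun k : ℕ => k.Coprime d), 1 / (k : ℝ) * β (y * (ucl d k)⁻¹) : ℝ) : ℂ) =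
      ∑ χ : DirichletCharacter ℂ d, (b χ : ℂ) * ev χ y *
        (starRingEnd ℂ) (∑ k ∈ Ioc A B, ((1 / (k : ℝ) : ℝ) : ℂ) * χ (k : ZMod d)) := by
  have h1 : ∀ χ : DirichletCharacter ℂ d, (b χ : ℂ) * ev χ y *
        (starRingEnd ℂ) (∑ k ∈ Ioc A B, ((1 / (k : ℝ) : ℝ) : ℂ) * χ (k : ZMod d)) =
      ∑ k ∈ (Ioc A B).filter (fun k : ℕ => k.Coprime d),
        ((1 / (k : ℝ) : ℝ) : ℂ) * ((b χ : ℂ) * ev χ (y * (ucl d k)⁻¹)) := by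
    intro χ
    rw [c3_conj, Finset.mul_sum]
    refine Finset.sum_congr rfl fun k _ => ?_
    rw [ev_mul]
    ring
  rw [Finset.sum_congr rfl fun χ _ => h1 χ, Finset.sum_comm, Complex.ofReal_sum]
  refine Finset.sum_congr rfl fun k _ => ?_
  rw [Complex.ofReal_mul, ker_exp hK, Finset.mul_sum]

private theorem c3_one {d : ℕ} [NeZero d] (A B : ℕ) :
    (starRingEnd ℂ) (∑ k ∈ Ioc A B, ((1 / (k : ℝ) : ℝ) : ℂ) * (1 : DirichletCharacter ℂ d) (k : ZMod d)) =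
      ((∑ k ∈ (Ioc A B).filter (fun k : ℕ => k.Coprime d), 1 / (k : ℝ) : ℝ) : ℂ) := by
  rw [c3_conj, Complex.ofReal_sum]
  refine Finset.sum_congr rfl fun k _ => ?_
  have h1 : ev (1 : DirichletCharacter ℂ d) (ucl d k)⁻¹ = 1 := by
    unfold ev
    exact MulChar.one_apply_coe _
  rw [h1, mul_one]

private theorem c3_main {d : ℕ} [NeZero d] {X : Finset (DirichletCharacter ℂ d)} {η Q : ℝ} {β : (ZMod d)ˣ → ℝ}
    {b : DirichletCharacter ℂ d → ℝ} (hK : Ker X η Q β b) (y : (ZMod d)ˣ) (A B : ℕ) (ρ : ℝ) (hρ0 : 0 ≤ ρ)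
    (hρ : ∀ χ : DirichletCharacter ℂ d, χ ≠ 1 → b χ ≠ 0 → ‖∑ k ∈ Ioc A B, ((1 / (k : ℝ) : ℝ) : ℂ) * χ (k : ZMod d)‖ ≤ ρ) :
    |∑ k ∈ (Ioc A B).filter (fun k : ℕ => k.Coprime d), 1 / (k : ℝ) * β (y * (ucl d k)⁻¹) -
      ∑ k ∈ (Ioc A B).filter (fun k : ℕ => k.Coprime d), 1 / (k : ℝ)| ≤ Q * ρ := by
  classical
  have h1 : (((∑ k ∈ (Ioc A B).filter (fun k : ℕ => k.Coprime d), 1 / (k : ℝ) * β (y * (ucl d k)⁻¹) -
      ∑ k ∈ (Ioc A B).filter (fun k : ℕ => k.Coprime d), 1 / (k : ℝ) : ℝ)) : ℂ) =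
      ∑ χ ∈ (univ : Finset (DirichletCharacter ℂ d)).erase 1, (b χ : ℂ) * ev χ y *
        (starRingEnd ℂ) (∑ k ∈ Ioc A B, ((1 / (k : ℝ) : ℝ) : ℂ) * χ (k : ZMod d)) := by
    rw [Complex.ofReal_sub, c3_exp hK, ← Finset.add_sum_erase _ _ (Finset.mem_univ (1 : DirichletCharacter ℂ d)),
      c3_one, hK.b_one]
    have h2 : ev (1 : DirichletCharacter ℂ d) y = 1 := by
      unfold ev
      exact MulChar.one_apply_coe _
    rw [h2, Complex.ofReal_one, one_mul, one_mul, add_sub_cancel_left]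
  have h2 : |∑ k ∈ (Ioc A B).filter (fun k : ℕ => k.Coprime d), 1 / (k : ℝ) * β (y * (ucl d k)⁻¹) -
      ∑ k ∈ (Ioc A B).filter (fun k : ℕ => k.Coprime d), 1 / (k : ℝ)| =
      ‖(((∑ k ∈ (Ioc A B).filter (fun k : ℕ => k.Coprime d), 1 / (k : ℝ) * β (y * (ucl d k)⁻¹) -
      ∑ k ∈ (Ioc A B).filter (fun k : ℕ => k.Coprime d), 1 / (k : ℝ) : ℝ)) : ℂ)‖ := by
    rw [Complex.norm_real, Real.norm_eq_abs]
  rw [h2, h1]
  refine (norm_sum_le _ _).trans ?_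
  have h3 : ∀ χ ∈ (univ : Finset (DirichletCharacter ℂ d)).erase 1, ‖(b χ : ℂ) * ev χ y *
        (starRingEnd ℂ) (∑ k ∈ Ioc A B, ((1 / (k : ℝ) : ℝ) : ℂ) * χ (k : ZMod d))‖ ≤ b χ * ρ := by
    intro χ hχ
    rw [norm_mul, norm_mul, norm_ev, mul_one, RCLike.norm_conj, Complex.norm_real, Real.norm_eq_abs,
      abs_of_nonneg (hK.b_nonneg χ)]
    by_cases hb0 : b χ = 0
    · rw [hb0, zero_mul, zero_mul]
    · exact mul_le_mul_of_nonneg_left (hρ χ (Finset.ne_of_mem_erase hχ) hb0) (hK.b_nonneg χ)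
  refine (Finset.sum_le_sum h3).trans ?_
  rw [← Finset.sum_mul]
  refine mul_le_mul_of_nonneg_right ?_ hρ0
  exact (Finset.sum_le_sum_of_subset_of_nonneg (Finset.erase_subset _ _) fun χ _ _ => hK.b_nonneg χ).trans hK.wn

theorem mult_kernel_b {d : ℕ} [NeZero d] {X : Finset (DirichletCharacter ℂ d)} {η Q : ℝ} {β : (ZMod d)ˣ → ℝ}
    {b : DirichletCharacter ℂ d → ℝ} (hK : Ker X η Q β b) (x : (ZMod d)ˣ) (N1 N2 m : ℕ) (hm : m.Coprime d) (hm0 : 1 ≤ m)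
    (h1 : 1 ≤ N1 / m) (h2 : N1 ≤ N2) (ρ : ℝ) (hρ0 : 0 ≤ ρ)
    (hρ : ∀ χ : DirichletCharacter ℂ d, χ ≠ 1 → b χ ≠ 0 →
      ‖∑ k ∈ Ioc (N1 / m) (N2 / m), ((1 / (k : ℝ) : ℝ) : ℂ) * χ (k : ZMod d)‖ ≤ ρ) :
    |(m : ℝ) * ∑ n ∈ (Ioc N1 N2).filter (fun n : ℕ => m ∣ n ∧ n.Coprime d), 1 / (n : ℝ) * β (x * (ucl d n)⁻¹) -
      (Fintype.card (ZMod d)ˣ : ℝ) / d * (Real.log N2 - Real.log N1)| ≤
      6 * (d.divisors.card : ℝ) / ((N1 / m : ℕ) : ℝ) + Q * ρ := by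
  have hd : 0 < d := Nat.pos_of_ne_zero (NeZero.ne d)
  have hd' : (0 : ℝ) < d := by exact_mod_cast hd
  have hmR : (0 : ℝ) < m := by exact_mod_cast hm0
  have h12 : N1 / m ≤ N2 / m := Nat.div_le_div_right h2
  have hM1 : (0 : ℝ) < ((N1 / m : ℕ) : ℝ) := by exact_mod_cast h1
  have hH : (m : ℝ) * ∑ n ∈ (Ioc N1 N2).filter (fun n : ℕ => m ∣ n ∧ n.Coprime d), 1 / (n : ℝ) * β (x * (ucl d n)⁻¹) =
      ∑ k ∈ (Ioc (N1 / m) (N2 / m)).filter (fun k : ℕ => k.Coprime d),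
        1 / (k : ℝ) * β (x * (ucl d m)⁻¹ * (ucl d k)⁻¹) := by
    rw [c3_reindex hm hm0, Finset.mul_sum]
    refine Finset.sum_congr rfl fun k hk => ?_
    rw [mem_filter, mem_Ioc] at hk
    have hk0 : (0 : ℝ) < k := by
      have : 0 < k := lt_of_le_of_lt (Nat.zero_le _) hk.1.1
      exact_mod_cast this
    have h3 : x * (ucl d (m * k))⁻¹ = x * (ucl d m)⁻¹ * (ucl d k)⁻¹ := by
      rw [ucl_mul hm hk.2, mul_inv, ← mul_assoc]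
    rw [h3, Nat.cast_mul, ← mul_assoc]
    congr 1
    field_simp
  have hA := c3_main hK (x * (ucl d m)⁻¹) (N1 / m) (N2 / m) ρ hρ0 hρ
  have hB := A_inv_coprime d (N1 / m) (N2 / m) h1 h12
  obtain ⟨hl1, hl2⟩ := c3_log hm0 h1
  obtain ⟨hl3, hl4⟩ := c3_log (N := N2) hm0 (h1.trans h12)
  have hτ : (1 : ℝ) ≤ (d.divisors.card : ℝ) := by
    have h3 : 0 < d.divisors.card := Finset.card_pos.2 ⟨1, Nat.one_mem_divisors.2 hd.ne'⟩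
    exact_mod_cast h3
  have hφ : (Fintype.card (ZMod d)ˣ : ℝ) / d ≤ 1 := by
    rw [div_le_one hd', ZMod.card_units_eq_totient]
    exact_mod_cast Nat.totient_le d
  have hφ0 : 0 ≤ (Fintype.card (ZMod d)ˣ : ℝ) / d := by positivity
  have hM2 : (1 : ℝ) / ((N2 / m : ℕ) : ℝ) ≤ 1 / ((N1 / m : ℕ) : ℝ) :=
    one_div_le_one_div_of_le hM1 (by exact_mod_cast h12)
  have hC : |(Fintype.card (ZMod d)ˣ : ℝ) / d * (Real.log ((N2 / m : ℕ) : ℝ) - Real.log ((N1 / m : ℕ) : ℝ)) -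
      (Fintype.card (ZMod d)ˣ : ℝ) / d * (Real.log N2 - Real.log N1)| ≤ 1 / ((N1 / m : ℕ) : ℝ) := by
    rw [← mul_sub, abs_mul, abs_of_nonneg hφ0]
    have h3 : |Real.log ((N2 / m : ℕ) : ℝ) - Real.log ((N1 / m : ℕ) : ℝ) - (Real.log N2 - Real.log N1)| ≤
        1 / ((N1 / m : ℕ) : ℝ) := by
      rw [abs_le]
      constructor <;> linarith
    calc (Fintype.card (ZMod d)ˣ : ℝ) / d * |Real.log ((N2 / m : ℕ) : ℝ) - Real.log ((N1 / m : ℕ) : ℝ) -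
          (Real.log N2 - Real.log N1)| ≤ 1 * (1 / ((N1 / m : ℕ) : ℝ)) :=
        mul_le_mul hφ h3 (abs_nonneg _) zero_le_one
      _ = 1 / ((N1 / m : ℕ) : ℝ) := one_mul _
  have hD : 6 * (d.divisors.card : ℝ) / ((N1 / m : ℕ) : ℝ) ≥
      4 * (d.divisors.card : ℝ) / ((N1 / m : ℕ) : ℝ) + 1 / ((N1 / m : ℕ) : ℝ) := by
    rw [← add_div]
    exact div_le_div_of_nonneg_right (by linarith) hM1.le
  rw [hH]
  have h5 := abs_le.1 hA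
  have h6 := abs_le.1 hB
  have h7 := abs_le.1 hC
  rw [abs_le]
  constructor <;> linarith [h5.1, h5.2, h6.1, h6.2, h7.1, h7.2]

theorem lower_b {d : ℕ} [NeZero d] {X : Finset (DirichletCharacter ℂ d)} {η Q : ℝ} {β : (ZMod d)ˣ → ℝ}
    {b : DirichletCharacter ℂ d → ℝ} (hK : Ker X η Q β b) (x : (ZMod d)ˣ) (N1 N2 D M0 : ℕ) (h12 : N1 ≤ N2) (hM0 : 1 ≤ M0)
    (hD : 1 ≤ D) (hDM : M0 ≤ N1 / D) (ω : ℕ → ℝ) (hω : ∀ m, ω m ≠ 0 → 1 ≤ m ∧ m ≤ D ∧ m.Coprime d) (ρ : ℝ) (hρ0 : 0 ≤ ρ)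
    (hρ : ∀ χ : DirichletCharacter ℂ d, χ ≠ 1 → b χ ≠ 0 → ∀ A B : ℕ, M0 ≤ A → A ≤ B → B ≤ N2 →
      ‖∑ k ∈ Ioc A B, ((1 / (k : ℝ) : ℝ) : ℂ) * χ (k : ZMod d)‖ ≤ ρ) :
    (Fintype.card (ZMod d)ˣ : ℝ) / d * (Real.log N2 - Real.log N1) * (∑ m ∈ Icc 1 D, ω m / (m : ℝ)) -
        (∑ m ∈ Icc 1 D, |ω m| / (m : ℝ)) * (6 * (d.divisors.card : ℝ) / (M0 : ℝ) + Q * ρ) ≤
      ∑ n ∈ (Ioc N1 N2).filter (fun n : ℕ => n.Coprime d), 1 / (n : ℝ) * β (x * (ucl d n)⁻¹) * ∑ m ∈ n.divisors, ω m := by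
  classical
  obtain ⟨L0, hL0⟩ : ∃ L0 : ℝ, L0 = (Fintype.card (ZMod d)ˣ : ℝ) / d * (Real.log N2 - Real.log N1) :=
    ⟨_, rfl⟩
  obtain ⟨Er, hEr⟩ : ∃ Er : ℝ, Er = 6 * (d.divisors.card : ℝ) / (M0 : ℝ) + Q * ρ := ⟨_, rfl⟩
  obtain ⟨h, hh⟩ : ∃ h : ℕ → ℝ, h = fun n : ℕ => 1 / (n : ℝ) * β (x * (ucl d n)⁻¹) := ⟨_, rfl⟩
  rw [← hL0, ← hEr]
  have e1 : ∑ n ∈ (Ioc N1 N2).filter (fun n : ℕ => n.Coprime d),
      1 / (n : ℝ) * β (x * (ucl d n)⁻¹) * ∑ m ∈ n.divisors, ω m =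
      ∑ n ∈ (Ioc N1 N2).filter (fun n : ℕ => n.Coprime d), ∑ m ∈ Icc 1 D,
        if m ∣ n then ω m * h n else 0 := by
    refine sum_congr rfl fun n hn => ?_
    obtain ⟨hn1, _⟩ := mem_filter.1 hn
    have hn0 : n ≠ 0 := by
      have := (mem_Ioc.1 hn1).1
      omega
    have e2 : ∑ m ∈ n.divisors, ω m = ∑ m ∈ (Icc 1 D).filter (fun m => m ∣ n), ω m := by
      symm
      refine sum_subset ?_ ?_
      · intro m hm
        exact Nat.mem_divisors.2 ⟨(mem_filter.1 hm).2, hn0⟩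
      · intro m hm hm'
        by_contra hc
        obtain ⟨g1, g2, _⟩ := hω m hc
        exact hm' (mem_filter.2 ⟨mem_Icc.2 ⟨g1, g2⟩, Nat.dvd_of_mem_divisors hm⟩)
    rw [e2, sum_filter, mul_sum]
    refine sum_congr rfl fun m _ => ?_
    rw [hh]
    by_cases hmn : m ∣ n
    · rw [if_pos hmn, if_pos hmn, mul_comm]
    · rw [if_neg hmn, if_neg hmn, mul_zero]
  rw [e1, sum_comm]
  have e3 : ∀ m ∈ Icc 1 D, L0 * (ω m / (m : ℝ)) - |ω m| / (m : ℝ) * Er ≤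
      ∑ n ∈ (Ioc N1 N2).filter (fun n : ℕ => n.Coprime d), if m ∣ n then ω m * h n else 0 := by
    intro m hm
    by_cases hm0 : ω m = 0
    · rw [hm0, zero_div, mul_zero, abs_zero, zero_div, zero_mul, sub_zero]
      refine le_of_eq (Eq.symm (sum_eq_zero fun n _ => ?_))
      rw [zero_mul, ite_self]
    · obtain ⟨g1, g2, g3⟩ := hω m hm0
      have g4 : M0 ≤ N1 / m := hDM.trans (Nat.div_le_div_left g2 g1)
      have g5 := mult_kernel_b hK x N1 N2 m g3 g1 (hM0.trans g4) h12 ρ hρ0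
        (fun χ hχ hb => hρ χ hχ hb (N1 / m) (N2 / m) g4 (Nat.div_le_div_right h12) (Nat.div_le_self _ _))
      rw [← hL0] at g5
      have hM : (0 : ℝ) < (M0 : ℝ) := by exact_mod_cast hM0
      have g6 : 6 * (d.divisors.card : ℝ) / ((N1 / m : ℕ) : ℝ) + Q * ρ ≤ Er := by
        rw [hEr]
        refine add_le_add ?_ le_rfl
        exact div_le_div_of_nonneg_left (by positivity) hM (by exact_mod_cast g4)
      have g7 := g5.trans g6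
      have hmp : (0 : ℝ) < (m : ℝ) := by exact_mod_cast g1
      obtain ⟨H, hH⟩ : ∃ H : ℝ, H = ∑ n ∈ (Ioc N1 N2).filter (fun n : ℕ => m ∣ n ∧ n.Coprime d),
        1 / (n : ℝ) * β (x * (ucl d n)⁻¹) := ⟨_, rfl⟩
      rw [← hH] at g7
      have g8 : ∑ n ∈ (Ioc N1 N2).filter (fun n : ℕ => n.Coprime d),
          (if m ∣ n then ω m * h n else 0) = ω m * H := by
        rw [hH, mul_sum, ← sum_filter, filter_filter]
        refine sum_congr ?_ fun n _ => by rw [hh]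
        ext n
        simp only [mem_filter]
        tauto
      rw [g8]
      have g9 : ω m * H = L0 * (ω m / (m : ℝ)) + ω m / (m : ℝ) * ((m : ℝ) * H - L0) := by
        field_simp
        ring
      have g10 : |ω m / (m : ℝ) * ((m : ℝ) * H - L0)| ≤ |ω m| / (m : ℝ) * Er := by
        rw [abs_mul, abs_div, abs_of_pos hmp]
        exact mul_le_mul_of_nonneg_left g7 (div_nonneg (abs_nonneg _) hmp.le)
      have g11 := (abs_le.1 g10).1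
      rw [g9]
      linarith
  refine le_trans (le_of_eq ?_) (sum_le_sum e3)
  rw [sum_sub_distrib, mul_sum, sum_mul]

/-- the upper bound -/
theorem upper_b {d : ℕ} [NeZero d] {X : Finset (DirichletCharacter ℂ d)} {η Q : ℝ} {β : (ZMod d)ˣ → ℝ}
    {b : DirichletCharacter ℂ d → ℝ} (hK : Ker X η Q β b) (x : (ZMod d)ˣ) (N1 N2 D M0 : ℕ) (h12 : N1 ≤ N2) (hM0 : 1 ≤ M0)
    (hD : 1 ≤ D) (hDM : M0 ≤ N1 / D) (ω : ℕ → ℝ) (hω : ∀ m, ω m ≠ 0 → 1 ≤ m ∧ m ≤ D ∧ m.Coprime d) (ρ : ℝ) (hρ0 : 0 ≤ ρ)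
    (hρ : ∀ χ : DirichletCharacter ℂ d, χ ≠ 1 → b χ ≠ 0 → ∀ A B : ℕ, M0 ≤ A → A ≤ B → B ≤ N2 →
      ‖∑ k ∈ Ioc A B, ((1 / (k : ℝ) : ℝ) : ℂ) * χ (k : ZMod d)‖ ≤ ρ) :
    ∑ n ∈ (Ioc N1 N2).filter (fun n : ℕ => n.Coprime d), 1 / (n : ℝ) * β (x * (ucl d n)⁻¹) * ∑ m ∈ n.divisors, ω m ≤
      (Fintype.card (ZMod d)ˣ : ℝ) / d * (Real.log N2 - Real.log N1) * (∑ m ∈ Icc 1 D, ω m / (m : ℝ)) +
        (∑ m ∈ Icc 1 D, |ω m| / (m : ℝ)) * (6 * (d.divisors.card : ℝ) / (M0 : ℝ) + Q * ρ) := by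
  have h1 := lower_b hK x N1 N2 D M0 h12 hM0 hD hDM (fun m => -ω m) (fun m hm => hω m (fun h => hm (by rw [h, neg_zero]))) ρ hρ0 hρ
  have h2 : ∑ m ∈ Icc 1 D, -ω m / (m : ℝ) = -∑ m ∈ Icc 1 D, ω m / (m : ℝ) := by
    rw [← sum_neg_distrib]
    exact sum_congr rfl fun m _ => neg_div _ _
  have h3 : ∑ m ∈ Icc 1 D, |(-ω m)| / (m : ℝ) = ∑ m ∈ Icc 1 D, |ω m| / (m : ℝ) := sum_congr rfl fun m _ => by rw [abs_neg]
  have h4 : ∑ n ∈ (Ioc N1 N2).filter (fun n : ℕ => n.Coprime d), 1 / (n : ℝ) * β (x * (ucl d n)⁻¹) * ∑ m ∈ n.divisors, -ω m =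
      -∑ n ∈ (Ioc N1 N2).filter (fun n : ℕ => n.Coprime d), 1 / (n : ℝ) * β (x * (ucl d n)⁻¹) * ∑ m ∈ n.divisors, ω m := by
    rw [← sum_neg_distrib]
    refine sum_congr rfl fun n _ => ?_
    rw [sum_neg_distrib, mul_neg]
  rw [h2, h3, h4] at h1
  linarith

end Pool.Agent.Lib.MP_42948a_nt.SH
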