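import Pool.Agent.Lib.MP_42948a_nt.SH.A
import Pool.Agent.Lib.MP_42948a_nt.SV.A1a
import Pool.Agent.Lib.MP_42948a_nt.SV.A1c
import Pool.Agent.Lib.MP_42948a_nt.SV.A2
import Pool.Agent.Lib.MP_42948a_nt.TF.E2

/-!
# Selberg's upper bound for one modulus

`ω m = ∑_{lcm (a, b) = m} λ_a λ_b = kap d w ξ 1 m`.
-/

namespace Pool.Agent.Lib.MP_42948a_nt.SH

open Finset Pool.Agent.Lib.MP_42948a_nt.OA Pool.Agent.Lib.MP_42948a_nt.TQ Pool.Agent.Lib.MP_42948a_nt.TF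
  Pool.Agent.Lib.MP_42948a_nt.SV

private theorem B_H (D : ℕ) : ∑ n ∈ Icc 1 D, 1 / (n : ℝ) ≤ 1 + Real.log D := by
  have h := harmonic_le_one_add_log D
  rw [harmonic_eq_sum_Icc] at h
  push_cast at h
  refine le_trans (le_of_eq ?_) h
  exact sum_congr rfl fun n _ => one_div _

private theorem B_lcm (D : ℕ) :
    ∑ a ∈ Icc 1 D, ∑ b ∈ Icc 1 D, 1 / ((a.lcm b : ℕ) : ℝ) ≤
      (∑ n ∈ Icc 1 D, 1 / (n : ℝ)) ^ 3 := by
  have e1 : (∑ n ∈ Icc 1 D, 1 / (n : ℝ)) ^ 3 =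
      ∑ y ∈ Icc 1 D ×ˢ (Icc 1 D ×ˢ Icc 1 D),
        1 / (y.1 : ℝ) * (1 / (y.2.1 : ℝ) * (1 / (y.2.2 : ℝ))) := by
    rw [sum_product, pow_succ', pow_two, sum_mul_sum, sum_mul]
    refine sum_congr rfl fun g _ => ?_
    rw [sum_product, mul_sum]
    refine sum_congr rfl fun a _ => ?_
    rw [mul_sum]
  obtain ⟨e, he⟩ : ∃ e : ℕ × ℕ → ℕ × (ℕ × ℕ), e = fun x =>
      (x.1.gcd x.2, (x.1 / x.1.gcd x.2, x.2 / x.1.gcd x.2)) := ⟨_, rfl⟩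
  have hinj : Set.InjOn e ((Icc 1 D ×ˢ Icc 1 D : Finset (ℕ × ℕ)) : Set (ℕ × ℕ)) := by
    intro x _ y _ h
    rw [he] at h
    simp only [Prod.mk.injEq] at h
    obtain ⟨h1, h2, h3⟩ := h
    have a1 := Nat.div_mul_cancel (Nat.gcd_dvd_left x.1 x.2)
    have a2 := Nat.div_mul_cancel (Nat.gcd_dvd_right x.1 x.2)
    have b1 := Nat.div_mul_cancel (Nat.gcd_dvd_left y.1 y.2)
    have b2 := Nat.div_mul_cancel (Nat.gcd_dvd_right y.1 y.2)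
    refine Prod.ext ?_ ?_
    · rw [← a1, ← b1, h2, h1]
    · rw [← a2, ← b2, h3, h1]
  rw [e1, ← sum_product']
  calc ∑ x ∈ Icc 1 D ×ˢ Icc 1 D, 1 / ((x.1.lcm x.2 : ℕ) : ℝ)
      = ∑ x ∈ Icc 1 D ×ˢ Icc 1 D,
          1 / ((e x).1 : ℝ) * (1 / ((e x).2.1 : ℝ) * (1 / ((e x).2.2 : ℝ))) := by
        refine sum_congr rfl fun x hx => ?_
        rw [mem_product, mem_Icc, mem_Icc] at hx
        rw [he]
        show _ = 1 / ((x.1.gcd x.2 : ℕ) : ℝ) * (1 / ((x.1 / x.1.gcd x.2 : ℕ) : ℝ) *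
          (1 / ((x.2 / x.1.gcd x.2 : ℕ) : ℝ)))
        have h1 : x.1.lcm x.2 = x.1.gcd x.2 * (x.1 / x.1.gcd x.2 * (x.2 / x.1.gcd x.2)) := by
          have hg : 0 < x.1.gcd x.2 := Nat.gcd_pos_of_pos_left _ hx.1.1
          have a1 := Nat.div_mul_cancel (Nat.gcd_dvd_left x.1 x.2)
          have a2 := Nat.div_mul_cancel (Nat.gcd_dvd_right x.1 x.2)
          have a3 := Nat.gcd_mul_lcm x.1 x.2
          refine Nat.eq_of_mul_eq_mul_left hg ?_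
          rw [a3]
          calc x.1 * x.2 = (x.1 / x.1.gcd x.2 * x.1.gcd x.2) *
                (x.2 / x.1.gcd x.2 * x.1.gcd x.2) := by rw [a1, a2]
            _ = _ := by ring
        rw [h1]
        push_cast
        rw [one_div_mul_one_div, one_div_mul_one_div]
    _ = ∑ y ∈ (Icc 1 D ×ˢ Icc 1 D).image e,
          1 / (y.1 : ℝ) * (1 / (y.2.1 : ℝ) * (1 / (y.2.2 : ℝ))) := by
        rw [sum_image hinj]
    _ ≤ _ := by
        refine sum_le_sum_of_subset_of_nonneg ?_ fun y _ _ => by positivity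
        intro y hy
        rw [mem_image] at hy
        obtain ⟨x, hx, rfl⟩ := hy
        rw [mem_product, mem_Icc, mem_Icc] at hx
        rw [he, mem_product, mem_product, mem_Icc, mem_Icc, mem_Icc]
        have hg : 0 < x.1.gcd x.2 := Nat.gcd_pos_of_pos_left _ hx.1.1
        refine ⟨⟨hg, (Nat.gcd_le_left _ hx.1.1).trans hx.1.2⟩,
          ⟨Nat.div_pos (Nat.gcd_le_left _ hx.1.1) hg, (Nat.div_le_self _ _).trans hx.1.2⟩,
          ⟨Nat.div_pos (Nat.gcd_le_right _ hx.2.1) hg, (Nat.div_le_self _ _).trans hx.2.2⟩⟩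

private theorem B_kap (d w ξ p m : ℕ) :
    |kap d w ξ p m| ≤ ∑ a ∈ Sq d w ξ, ∑ b ∈ Sq d w ξ, if p * a.lcm b = m then (1 : ℝ) else 0 := by
  classical
  unfold kap
  refine (abs_sum_le_sum_abs _ _).trans (sum_le_sum fun a _ => ?_)
  refine (abs_sum_le_sum_abs _ _).trans (sum_le_sum fun b _ => ?_)
  by_cases h : p * a.lcm b = m
  · rw [if_pos h, if_pos h, abs_mul]
    have h1 := abs_lamS_le d w ξ a
    have h2 := abs_lamS_le d w ξ b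
    calc |lamS d w ξ a| * |lamS d w ξ b| ≤ 1 * 1 :=
          mul_le_mul h1 h2 (abs_nonneg _) zero_le_one
      _ = 1 := one_mul 1
  · rw [if_neg h, if_neg h, abs_zero]

private theorem B_pos {d w ξ a b : ℕ} (ha : a ∈ Sq d w ξ) (hb : b ∈ Sq d w ξ) :
    1 ≤ a.lcm b ∧ a.lcm b ≤ ξ ^ 2 ∧ (a.lcm b).Coprime d := by
  rw [mem_Sq] at ha hb
  obtain ⟨⟨a1, a2⟩, -, a3, -⟩ := ha
  obtain ⟨⟨b1, b2⟩, -, b3, -⟩ := hb
  refine ⟨Nat.lcm_pos a1 b1, ?_, ?_⟩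
  · have h1 : a.lcm b ≤ a * b := Nat.le_of_dvd (Nat.mul_pos a1 b1) (Nat.lcm_dvd (Dvd.intro _ rfl) (Dvd.intro_left _ rfl))
    have h2 : a * b ≤ ξ * ξ := Nat.mul_le_mul a2 b2
    rw [sq]
    exact h1.trans h2
  · exact Nat.Coprime.coprime_dvd_left (Nat.lcm_dvd (Dvd.intro _ rfl) (Dvd.intro_left _ rfl)) (Nat.Coprime.mul_left a3 b3)

theorem kap1_supp (d w ξ m : ℕ) (h : kap d w ξ 1 m ≠ 0) : 1 ≤ m ∧ m ≤ ξ ^ 2 ∧ m.Coprime d := by
  classical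
  by_contra hc
  apply h
  unfold kap
  refine sum_eq_zero fun a ha => sum_eq_zero fun b hb => ?_
  rw [if_neg]
  intro hm
  apply hc
  rw [one_mul] at hm
  rw [← hm]
  exact B_pos ha hb

theorem kap1_sum (d w ξ D : ℕ) (hξ : 1 ≤ ξ) (hD : ξ ^ 2 ≤ D) : ∑ m ∈ Icc 1 D, kap d w ξ 1 m / (m : ℝ) = 1 / Gs d w ξ := by
  classical
  rw [← selberg d w ξ hξ]
  have h1 : ∀ m : ℕ, kap d w ξ 1 m / (m : ℝ) =
      ∑ a ∈ Sq d w ξ, ∑ b ∈ Sq d w ξ, if a.lcm b = m then lamS d w ξ a * lamS d w ξ b / (m : ℝ) else 0 := by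
    intro m
    unfold kap
    rw [sum_div]
    refine sum_congr rfl fun a _ => ?_
    rw [sum_div]
    refine sum_congr rfl fun b _ => ?_
    rw [one_mul]
    split_ifs
    · rfl
    · rw [zero_div]
  rw [sum_congr rfl fun m _ => h1 m, sum_comm]
  refine sum_congr rfl fun a ha => ?_
  rw [sum_comm]
  refine sum_congr rfl fun b hb => ?_
  obtain ⟨g1, g2, -⟩ := B_pos ha hb
  rw [sum_ite_eq, if_pos (mem_Icc.2 ⟨g1, g2.trans hD⟩)]

theorem kap1_abs (d w ξ D : ℕ) : ∑ m ∈ Icc 1 D, |kap d w ξ 1 m| / (m : ℝ) ≤ (1 + Real.log ξ) ^ 3 := by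
  classical
  have h1 : ∀ m : ℕ, |kap d w ξ 1 m| / (m : ℝ) ≤
      ∑ a ∈ Sq d w ξ, ∑ b ∈ Sq d w ξ, if a.lcm b = m then 1 / (m : ℝ) else 0 := by
    intro m
    refine (div_le_div_of_nonneg_right (B_kap d w ξ 1 m) (Nat.cast_nonneg m)).trans (le_of_eq ?_)
    rw [sum_div]
    refine sum_congr rfl fun a _ => ?_
    rw [sum_div]
    refine sum_congr rfl fun b _ => ?_
    rw [one_mul]
    split_ifs
    · rfl
    · rw [zero_div]
  refine (sum_le_sum fun m _ => h1 m).trans ?_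
  rw [sum_comm]
  have h2 : ∑ a ∈ Sq d w ξ, ∑ m ∈ Icc 1 D, ∑ b ∈ Sq d w ξ, (if a.lcm b = m then 1 / (m : ℝ) else 0) ≤
      ∑ a ∈ Sq d w ξ, ∑ b ∈ Sq d w ξ, 1 / ((a.lcm b : ℕ) : ℝ) := by
    refine sum_le_sum fun a _ => ?_
    rw [sum_comm]
    refine sum_le_sum fun b _ => ?_
    rw [sum_ite_eq]
    split_ifs
    · exact le_rfl
    · positivity
  refine h2.trans ?_
  have hsub : Sq d w ξ ⊆ Icc 1 ξ := by
    intro a ha
    rw [mem_Sq] at ha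
    exact mem_Icc.2 ha.1
  have h3 : ∑ a ∈ Sq d w ξ, ∑ b ∈ Sq d w ξ, 1 / ((a.lcm b : ℕ) : ℝ) ≤ ∑ a ∈ Icc 1 ξ, ∑ b ∈ Icc 1 ξ, 1 / ((a.lcm b : ℕ) : ℝ) := by
    refine (sum_le_sum fun a _ => sum_le_sum_of_subset_of_nonneg hsub fun b _ _ => by positivity).trans ?_
    exact sum_le_sum_of_subset_of_nonneg hsub fun a _ _ => sum_nonneg fun b _ => by positivity
  refine h3.trans ((B_lcm ξ).trans ?_)
  exact pow_le_pow_left₀ (sum_nonneg fun n _ => by positivity) (B_H ξ) 3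

/-- at a prime `> ξ` the square is `1` -/
private theorem B_prime (d ξ p : ℕ) (hξ : 1 ≤ ξ) (hp : p.Prime) (hpξ : ξ < p) :
    ∑ m ∈ p.divisors, kap d (ξ + 1) ξ 1 m = 1 := by
  classical
  rw [SV_A2_kap d (ξ + 1) ξ 1 p hp.pos, if_pos (one_dvd p), Nat.div_one]
  have h1 : (Sq d (ξ + 1) ξ).filter (fun a => a ∣ p) = {1} := by
    ext a
    rw [mem_filter, mem_singleton]
    constructor
    · rintro ⟨h1, h2⟩
      rw [mem_Sq] at h1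
      rcases (Nat.dvd_prime hp).1 h2 with h | h
      · exact h
      · omega
    · rintro rfl
      exact ⟨one_mem_Sq d (ξ + 1) hξ, one_dvd p⟩
  rw [h1, sum_singleton, lamS_one d (ξ + 1) hξ, one_pow]

/-- Selberg's upper bound for one modulus -/
theorem selberg_upper {d : ℕ} [NeZero d] {X : Finset (DirichletCharacter ℂ d)} {η Q : ℝ} {β : (ZMod d)ˣ → ℝ}
    {b : DirichletCharacter ℂ d → ℝ} (hK : Ker X η Q β b) (x : (ZMod d)ˣ) (N1 N2 ξ M0 : ℕ) (h12 : N1 ≤ N2) (hM0 : 1 ≤ M0)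
    (hξ : 1 ≤ ξ) (hξN : ξ ≤ N1) (hDM : M0 ≤ N1 / ξ ^ 2) (ρ : ℝ) (hρ0 : 0 ≤ ρ)
    (hρ : ∀ χ : DirichletCharacter ℂ d, χ ≠ 1 → b χ ≠ 0 → ∀ A B : ℕ, M0 ≤ A → A ≤ B → B ≤ N2 →
      ‖∑ k ∈ Ioc A B, ((1 / (k : ℝ) : ℝ) : ℂ) * χ (k : ZMod d)‖ ≤ ρ) :
    sm β (primesOff d N1 N2) x ≤ (Fintype.card (ZMod d)ˣ : ℝ) / d * (Real.log N2 - Real.log N1) * (1 / Gs d (ξ + 1) ξ) +
      (1 + Real.log ξ) ^ 3 * (6 * (d.divisors.card : ℝ) / (M0 : ℝ) + Q * ρ) := by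
  classical
  have hM0r : (0 : ℝ) < M0 := by exact_mod_cast hM0
  have hQ : 0 ≤ Q := (sum_nonneg fun χ _ => hK.b_nonneg χ).trans hK.wn
  have h1 := upper_b hK x N1 N2 (ξ ^ 2) M0 h12 hM0 (Nat.one_le_pow _ _ hξ) hDM (fun m => kap d (ξ + 1) ξ 1 m)
    (fun m hm => kap1_supp d (ξ + 1) ξ m hm) ρ hρ0 hρ
  rw [kap1_sum d (ξ + 1) ξ (ξ ^ 2) hξ le_rfl] at h1
  have h2 := mul_le_mul_of_nonneg_right (kap1_abs d (ξ + 1) ξ (ξ ^ 2))
    (show 0 ≤ 6 * (d.divisors.card : ℝ) / (M0 : ℝ) + Q * ρ by positivity)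
  have h3 : sm β (primesOff d N1 N2) x ≤ ∑ n ∈ (Ioc N1 N2).filter (fun n : ℕ => n.Coprime d),
      1 / (n : ℝ) * β (x * (ucl d n)⁻¹) * ∑ m ∈ n.divisors, kap d (ξ + 1) ξ 1 m := by
    have hsub : primesOff d N1 N2 ⊆ (Ioc N1 N2).filter (fun n : ℕ => n.Coprime d) := by
      intro p hp
      unfold primesOff at hp
      rw [mem_filter] at hp
      obtain ⟨h4, h5, h6, h7⟩ := hp
      have h8 : p ≤ N2 := by
        have := h4
        rw [mem_Icc] at this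
        omega
      rw [mem_filter, mem_Ioc]
      exact ⟨⟨h6, h8⟩, (Nat.Prime.coprime_iff_not_dvd h5).2 h7⟩
    have h9 : ∀ n ∈ (Ioc N1 N2).filter (fun n : ℕ => n.Coprime d), 0 ≤ 1 / (n : ℝ) * β (x * (ucl d n)⁻¹) *
        ∑ m ∈ n.divisors, kap d (ξ + 1) ξ 1 m := by
      intro n hn
      rw [mem_filter, mem_Ioc] at hn
      rw [SV_A2_kap d (ξ + 1) ξ 1 n (by omega), if_pos (one_dvd n)]
      exact mul_nonneg (mul_nonneg (by positivity) (hK.nonneg _)) (sq_nonneg _)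
    unfold sm
    refine le_trans (le_of_eq (sum_congr rfl fun p hp => ?_)) (sum_le_sum_of_subset_of_nonneg hsub fun n hn _ => h9 n hn)
    have hp' := hp
    unfold primesOff at hp'
    rw [mem_filter] at hp'
    rw [B_prime d ξ p hξ hp'.2.1 (lt_of_le_of_lt hξN hp'.2.2.1), mul_one]
  linarith

end Pool.Agent.Lib.MP_42948a_nt.SH
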