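import Pool.Agent.Lib.MP_42948a_nt.SH.B
import Pool.Agent.Lib.MP_42948a_nt.SV.B2a
import Pool.Agent.Lib.MP_42948a_nt.SV.B3
import Pool.Agent.Lib.MP_42948a_nt.EK.TI1
import Pool.Agent.Lib.MP_42948a_nt.OA.ZA

/-!
# Selberg's upper bound in a window, Burgess exponent `θ`

`N1 = ⌊d^u⌋`, `N2 = ⌊d^(u+w)⌋`, `ξ = ⌊d^s⌋`, `s = (u - θ - κ) / 2`, `M0 = ⌈d^(θ + κ/4)⌉`. Main term `(φ/d) (log N2 - log N1) / Gs ≤ (w L + log 2) / (s L - C')`,
`L = log d`.
-/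

namespace Pool.Agent.Lib.MP_42948a_nt.SH

open Finset Pool.Agent.Lib.MP_42948a_nt.OA Pool.Agent.Lib.MP_42948a_nt.TQ Pool.Agent.Lib.MP_42948a_nt.TF
  Pool.Agent.Lib.MP_42948a_nt.SV

private theorem C_log (C : ℕ) (s B : ℝ) (hs : 0 < s) (hB : 0 < B) :
    ∀ᶠ x : ℝ in Filter.atTop, (Real.log x) ^ C ≤ B * x ^ s := by
  have h1 := (isLittleO_log_rpow_rpow_atTop (C : ℝ) hs).def hB
  filter_upwards [h1, Filter.eventually_ge_atTop (1 : ℝ)] with x h2 h3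
  have h4 : 0 < x ^ s := Real.rpow_pos_of_pos (by linarith) _
  rw [Real.rpow_natCast, Real.norm_of_nonneg (pow_nonneg (Real.log_nonneg h3) _),
    Real.norm_of_nonneg h4.le] at h2
  exact h2

/-- the lower bound of Selberg's sum -/
theorem gs_log : ∃ C : ℝ, 0 ≤ C ∧ ∀ d : ℕ, 1 ≤ d → ∀ ξ : ℕ, 1 ≤ ξ →
    (d.totient : ℝ) / d * (Real.log ξ - C) ≤ Gs d (ξ + 1) ξ := by
  obtain ⟨C, hC, hSD⟩ := SD_one
  refine ⟨C, hC, ?_⟩
  intro d hd ξ hξ
  have hdr : (0 : ℝ) < d := by exact_mod_cast hd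
  have hφ : (0 : ℝ) < d.totient := by exact_mod_cast Nat.totient_pos.2 (by omega)
  have h1 := (abs_le.1 (hSD ξ hξ)).1
  have h2 := SD_lower hd ξ
  have h3 := Gs_ge d (ξ + 1) ξ
  have h4 : (Icc (ξ + 1) ξ).filter (fun p => p.Prime ∧ ¬ p ∣ d) = ∅ := by
    rw [Icc_eq_empty (by omega), filter_empty]
  rw [h4, sum_empty, sub_zero] at h3
  refine le_trans ?_ h3
  have h5 : Real.log ξ - C ≤ (d : ℝ) / d.totient * MP_2a816b_nt.BH.SD ξ d := by linarith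
  have h6 := mul_le_mul_of_nonneg_left h5 (show 0 ≤ (d.totient : ℝ) / d by positivity)
  have h7 : (d.totient : ℝ) / d * ((d : ℝ) / d.totient * MP_2a816b_nt.BH.SD ξ d) = MP_2a816b_nt.BH.SD ξ d := by
    field_simp
  rw [h7] at h6
  exact h6

theorem sharp_gen (θ κ u w κ' Q : ℝ) (hθ : 1 / 4 ≤ θ) (hθ1 : θ ≤ 1 / 3) (hκ : 0 < κ) (hκ1 : κ ≤ 1 / 100) (hu : 1 ≤ u) (hw : 0 < w)
    (huw : u + w ≤ 5 / 4) (hκ' : 0 < κ') (hQ : 0 ≤ Q) : ∃ d0 : ℕ, ∀ d : ℕ, d0 ≤ d → ∀ [NeZero d],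
    ∀ (X : Finset (DirichletCharacter ℂ d)) (η : ℝ) (β : (ZMod d)ˣ → ℝ) (b : DirichletCharacter ℂ d → ℝ), Ker X η Q β b →
    (∀ χ : DirichletCharacter ℂ d, χ ≠ 1 → b χ ≠ 0 → ∀ N : ℕ, (d : ℝ) ^ (θ + κ / 4) ≤ (N : ℝ) →
      ‖∑ n ∈ Icc 1 N, χ (n : ZMod d)‖ ≤ (N : ℝ) * (d : ℝ) ^ (-κ')) →
    ∀ x : (ZMod d)ˣ, sm β (PW d u (u + w)) x ≤ (1 + κ) * (2 * w / (u - θ - κ)) := by
  obtain ⟨C, hC, hGs⟩ := gs_log
  obtain ⟨d1, hd1⟩ := BB_le (1 / 6) (by norm_num)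
  obtain ⟨s, hs⟩ : ∃ s : ℝ, s = (u - θ - κ) / 2 := ⟨_, rfl⟩
  have hs0 : 1 / 4 < s := by
    rw [hs]
    linarith
  have hs1 : s ≤ u := by
    rw [hs]
    linarith
  obtain ⟨C', hC'⟩ : ∃ C' : ℝ, C' = C + Real.log 2 := ⟨_, rfl⟩
  have hlog2 : 0 < Real.log 2 := Real.log_pos (by norm_num)
  have hC'0 : 0 < C' := by linarith
  have hsp : 0 < s := by linarith
  have ev1 : ∀ᶠ x : ℝ in Filter.atTop, 4 ≤ x ^ (3 * κ / 4) :=
    (tendsto_rpow_atTop (by linarith)).eventually_ge_atTop _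
  have ev2 : ∀ᶠ x : ℝ in Filter.atTop, (s * Real.log 2 + (1 + κ / 2) * w * C') / (κ / 2 * w * s) ≤ Real.log x :=
    Real.tendsto_log_atTop.eventually_ge_atTop _
  have ev3 : ∀ᶠ x : ℝ in Filter.atTop, (C' + 1) / s + 1 ≤ Real.log x :=
    Real.tendsto_log_atTop.eventually_ge_atTop _
  have ev4 := C_log 3 (1 / 12) (κ * w / (s * 192)) (by norm_num) (by positivity)
  have ev5 := C_log 4 κ' (κ * w / (s * (128 * (Q + 1)))) hκ' (by positivity)
  have ev := (tendsto_natCast_atTop_atTop (R := ℝ)).eventually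
    (ev1.and (ev2.and (ev3.and (ev4.and ev5))))
  obtain ⟨d2, hd2⟩ := Filter.eventually_atTop.1 ev
  refine ⟨max 2 (max d1 d2), ?_⟩
  intro d hd _ X η β b hK hchar x
  have hd2' : 2 ≤ d := (le_max_left _ _).trans hd
  obtain ⟨-, hdiv⟩ := hd1 d (((le_max_left _ _).trans (le_max_right _ _)).trans hd)
  obtain ⟨e1, e2, e3, e4, e5⟩ := hd2 d (((le_max_right _ _).trans (le_max_right _ _)).trans hd)
  have hx2 : (2 : ℝ) ≤ d := by exact_mod_cast hd2'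
  obtain ⟨D, hD⟩ : ∃ D : ℝ, D = (d : ℝ) := ⟨_, rfl⟩
  rw [← hD] at e1 e2 e3 e4 e5 hdiv hx2 hchar
  have hx0 : 0 < D := by linarith
  have hx1 : 1 ≤ D := by linarith
  obtain ⟨L, hL⟩ : ∃ L : ℝ, L = Real.log D := ⟨_, rfl⟩
  rw [← hL] at e2 e3 e4 e5
  have hCs : 0 < (C' + 1) / s := by positivity
  have hL1 : 1 ≤ L := by linarith
  have hone : ∀ t : ℝ, 0 ≤ t → 1 ≤ D ^ t := fun t ht => Real.one_le_rpow hx1 ht
  obtain ⟨N1, hN1d⟩ : ∃ N1 : ℕ, N1 = ⌊D ^ u⌋₊ := ⟨_, rfl⟩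
  obtain ⟨N2, hN2d⟩ : ∃ N2 : ℕ, N2 = ⌊D ^ (u + w)⌋₊ := ⟨_, rfl⟩
  obtain ⟨ξ, hξd⟩ : ∃ ξ : ℕ, ξ = ⌊D ^ s⌋₊ := ⟨_, rfl⟩
  obtain ⟨M0, hM0d⟩ : ∃ M0 : ℕ, M0 = ⌈D ^ (θ + κ / 4)⌉₊ := ⟨_, rfl⟩
  have hpos : ∀ t : ℝ, 0 < D ^ t := fun t => Real.rpow_pos_of_pos hx0 t
  -- sizes
  have hhalf : ∀ t : ℝ, 0 ≤ t → D ^ t / 2 ≤ (⌊D ^ t⌋₊ : ℝ) := by
    intro t ht
    have h1 := Nat.lt_floor_add_one (D ^ t)
    have h2 : (1 : ℝ) ≤ (⌊D ^ t⌋₊ : ℝ) := by
      exact_mod_cast (Nat.one_le_floor_iff _).2 (hone t ht)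
    linarith
  have hN1 : D ^ u / 2 ≤ (N1 : ℝ) := by
    rw [hN1d]
    exact hhalf u (by linarith)
  have hN2 : (N2 : ℝ) ≤ D ^ (u + w) := by
    rw [hN2d]
    exact Nat.floor_le (hpos _).le
  have hξ2 : D ^ s / 2 ≤ (ξ : ℝ) := by
    rw [hξd]
    exact hhalf s (by linarith)
  have hξ3 : (ξ : ℝ) ≤ D ^ s := by
    rw [hξd]
    exact Nat.floor_le (hpos _).le
  have hξ1 : 1 ≤ ξ := by
    rw [hξd]
    exact (Nat.one_le_floor_iff _).2 (hone s (by linarith))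
  have hξN : ξ ≤ N1 := by
    rw [hξd, hN1d]
    exact Nat.floor_le_floor (Real.rpow_le_rpow_of_exponent_le hx1 hs1)
  have h12 : N1 ≤ N2 := by
    rw [hN1d, hN2d]
    exact Nat.floor_le_floor (Real.rpow_le_rpow_of_exponent_le hx1 (by linarith))
  have hM0 : D ^ (θ + κ / 4) ≤ (M0 : ℝ) := by
    rw [hM0d]
    exact Nat.le_ceil _
  have hM01 : 1 ≤ M0 := by
    have h1 := (hone (θ + κ / 4) (by linarith)).trans hM0
    exact_mod_cast h1
  have hM02 : (M0 : ℝ) ≤ 2 * D ^ (θ + κ / 4) := by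
    have h1 := Nat.ceil_lt_add_one (hpos (θ + κ / 4)).le
    have h2 := hone (θ + κ / 4) (by linarith)
    rw [← hM0d] at h1
    linarith
  have hDM : M0 ≤ N1 / ξ ^ 2 := by
    rw [Nat.le_div_iff_mul_le (by positivity)]
    have h1 : ((M0 * ξ ^ 2 : ℕ) : ℝ) ≤ (N1 : ℝ) := by
      push_cast
      have h2 : (ξ : ℝ) ^ 2 ≤ D ^ (2 * s) := by
        have h3 : D ^ (2 * s) = D ^ s * D ^ s := by
          rw [← Real.rpow_add hx0]
          congr 1
          ring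
        rw [h3, sq]
        exact mul_le_mul hξ3 hξ3 (Nat.cast_nonneg _) (hpos _).le
      have h4 : (M0 : ℝ) * (ξ : ℝ) ^ 2 ≤ 2 * D ^ (θ + κ / 4) * D ^ (2 * s) :=
        mul_le_mul hM02 h2 (by positivity) (by have := hpos (θ + κ / 4); positivity)
      refine h4.trans (le_trans ?_ hN1)
      have h5 : D ^ (3 * κ / 4) * (D ^ (θ + κ / 4) * D ^ (2 * s)) = D ^ u := by
        rw [← Real.rpow_add hx0, ← Real.rpow_add hx0]
        congr 1
        rw [hs]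
        ring
      have h6 : 0 < D ^ (θ + κ / 4) * D ^ (2 * s) := mul_pos (hpos _) (hpos _)
      have h7 := mul_le_mul_of_nonneg_right e1 h6.le
      rw [h5] at h7
      linarith
    exact_mod_cast h1
  -- the characters
  obtain ⟨ρ, hρd⟩ : ∃ ρ : ℝ, ρ = D ^ (-κ') * (2 + 2 * L) := ⟨_, rfl⟩
  have hρ0 : 0 ≤ ρ := by
    rw [hρd]
    have := hpos (-κ')
    positivity
  have hρ : ∀ χ : DirichletCharacter ℂ d, χ ≠ 1 → b χ ≠ 0 → ∀ A B : ℕ, M0 ≤ A → A ≤ B → B ≤ N2 →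
      ‖∑ k ∈ Ioc A B, ((1 / (k : ℝ) : ℝ) : ℂ) * χ (k : ZMod d)‖ ≤ ρ := by
    intro χ hχ hb A B hA hAB hB
    have hA1 : 1 ≤ A := hM01.trans hA
    have h1 := EK.log_sum_bound (fun n => χ (n : ZMod d)) (D ^ (-κ')) (hpos _).le A B hA1 hAB (fun N hN =>
      hchar χ hχ hb N (hM0.trans (by exact_mod_cast hA.trans hN)))
    have h2 : ∑ n ∈ Ioc A B, χ (n : ZMod d) / (n : ℂ) = ∑ k ∈ Ioc A B, ((1 / (k : ℝ) : ℝ) : ℂ) * χ (k : ZMod d) := by
      refine sum_congr rfl fun n _ => ?_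
      push_cast
      ring
    rw [h2] at h1
    refine h1.trans ?_
    rw [hρd]
    refine mul_le_mul_of_nonneg_left ?_ (hpos _).le
    have hA0 : (0 : ℝ) < A := by exact_mod_cast hA1
    have hB0 : (0 : ℝ) < B := lt_of_lt_of_le hA0 (by exact_mod_cast hAB)
    have hB1 : Real.log B ≤ 2 * L := by
      have h3 : (B : ℝ) ≤ D ^ (2 : ℝ) := by
        have h4 : (B : ℝ) ≤ (N2 : ℝ) := by exact_mod_cast hB
        exact h4.trans (hN2.trans (Real.rpow_le_rpow_of_exponent_le hx1 (by linarith)))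
      have h4 := Real.log_le_log hB0 h3
      rw [Real.log_rpow hx0, ← hL] at h4
      exact h4
    have hA2 : 0 ≤ Real.log A := Real.log_nonneg (by exact_mod_cast hA1)
    rw [Real.log_div hB0.ne' hA0.ne']
    linarith
  have hmain := selberg_upper hK x N1 N2 ξ M0 h12 hM01 hξ1 hξN hDM ρ hρ0 hρ
  have hPW : PW d u (u + w) = primesOff d N1 N2 := by
    rw [PW, hN1d, hN2d, hD]
  rw [hPW]
  refine hmain.trans ?_
  -- the main term
  have hφ0 : (0 : ℝ) < d.totient := by exact_mod_cast Nat.totient_pos.2 (by omega)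
  have hcard : (Fintype.card (ZMod d)ˣ : ℝ) = d.totient := by
    rw [ZMod.card_units_eq_totient]
  have hlN1 : u * L - Real.log 2 ≤ Real.log N1 := by
    have h1 := Real.log_le_log (by have := hpos u; positivity) hN1
    rw [Real.log_div (hpos u).ne' (by norm_num), Real.log_rpow hx0, ← hL] at h1
    exact h1
  have hN20 : (0 : ℝ) < N2 := by
    have h1 : (1 : ℝ) ≤ (N1 : ℝ) := by
      exact_mod_cast hξ1.trans hξN
    have h2 : (N1 : ℝ) ≤ N2 := by exact_mod_cast h12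
    linarith
  have hlN2 : Real.log N2 ≤ (u + w) * L := by
    have h1 := Real.log_le_log hN20 hN2
    rw [Real.log_rpow hx0, ← hL] at h1
    exact h1
  have hlξ : s * L - Real.log 2 ≤ Real.log ξ := by
    have h1 := Real.log_le_log (by have := hpos s; positivity) hξ2
    rw [Real.log_div (hpos s).ne' (by norm_num), Real.log_rpow hx0, ← hL] at h1
    exact h1
  have hsL : 1 ≤ s * L - C' := by
    have h1 : (C' + 1) / s ≤ L := by linarith
    rw [div_le_iff₀ hsp] at h1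
    linarith
  have hG := hGs d (by omega) ξ hξ1
  have hG1 : (d.totient : ℝ) / d * (s * L - C') ≤ Gs d (ξ + 1) ξ := by
    refine le_trans (mul_le_mul_of_nonneg_left ?_ (by positivity)) hG
    rw [hC']
    linarith
  have hGp : 0 < Gs d (ξ + 1) ξ := Gs_pos d (ξ + 1) hξ1
  have hΔ0 : 0 ≤ Real.log N2 - Real.log N1 := by
    have h1 : (1 : ℝ) ≤ (N1 : ℝ) := by
      exact_mod_cast hξ1.trans hξN
    have h2 := Real.log_le_log (by linarith) (show (N1 : ℝ) ≤ N2 by exact_mod_cast h12)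
    linarith
  have hrd : 0 < (d.totient : ℝ) / d := by
    rw [← hD]
    positivity
  have hm1 : (Fintype.card (ZMod d)ˣ : ℝ) / d * (Real.log N2 - Real.log N1) * (1 / Gs d (ξ + 1) ξ) ≤
      (w * L + Real.log 2) / (s * L - C') := by
    rw [hcard, mul_one_div, div_le_div_iff₀ hGp (by linarith)]
    have h1 : (d.totient : ℝ) / d * (Real.log N2 - Real.log N1) * (s * L - C') =
        (Real.log N2 - Real.log N1) * ((d.totient : ℝ) / d * (s * L - C')) := by ring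
    rw [h1]
    have h2 := mul_le_mul_of_nonneg_left hG1 hΔ0
    have h3 : (Real.log N2 - Real.log N1) * Gs d (ξ + 1) ξ ≤ (w * L + Real.log 2) * Gs d (ξ + 1) ξ :=
      mul_le_mul_of_nonneg_right (by linarith) hGp.le
    linarith
  have hm2 : (w * L + Real.log 2) / (s * L - C') ≤ (1 + κ / 2) * (w / s) := by
    rw [div_le_iff₀ (by linarith)]
    have h1 : s * Real.log 2 + (1 + κ / 2) * w * C' ≤ κ / 2 * w * s * L := by
      rw [div_le_iff₀ (by positivity)] at e2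
      linarith
    have h2 : (1 + κ / 2) * (w / s) * (s * L - C') = ((1 + κ / 2) * w * (s * L - C')) / s := by ring
    rw [h2, le_div_iff₀ hsp]
    have h3 : (1 + κ / 2) * w * (s * L - C') = w * L * s + κ / 2 * w * s * L - (1 + κ / 2) * w * C' := by ring
    rw [h3]
    linarith
  -- the errors
  have hlξ' : Real.log ξ ≤ s * L := by
    have h1 := Real.log_le_log (by have := hpos s; linarith) hξ3
    rw [Real.log_rpow hx0, ← hL] at h1
    exact h1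
  have hs34 : s ≤ 1 := by
    rw [hs]
    linarith
  have hcube : (1 + Real.log ξ) ^ 3 ≤ 8 * L ^ 3 := by
    have h0 : 0 ≤ Real.log ξ := Real.log_nonneg (by exact_mod_cast hξ1)
    have h4 := mul_le_mul_of_nonneg_right hs34 (show 0 ≤ L by linarith)
    have h1 : 1 + Real.log ξ ≤ 2 * L := by linarith
    have h2 := pow_le_pow_left₀ (by linarith) h1 3
    have h3 : (2 * L) ^ 3 = 8 * L ^ 3 := by ring
    rw [h3] at h2
    exact h2
  have hE1 : 6 * (d.divisors.card : ℝ) / (M0 : ℝ) ≤ 6 / D ^ (1 / 12 : ℝ) := by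
    have hM0r : (0 : ℝ) < M0 := by exact_mod_cast hM01
    rw [div_le_div_iff₀ hM0r (hpos _)]
    have h1 : D ^ (1 / 6 : ℝ) * D ^ (1 / 12 : ℝ) ≤ (M0 : ℝ) := by
      refine le_trans ?_ hM0
      rw [← Real.rpow_add hx0]
      exact Real.rpow_le_rpow_of_exponent_le hx1 (by linarith)
    have h2 : (d.divisors.card : ℝ) * D ^ (1 / 12 : ℝ) ≤ D ^ (1 / 6 : ℝ) * D ^ (1 / 12 : ℝ) :=
      mul_le_mul_of_nonneg_right hdiv (hpos _).le
    linarith
  have hL3 : 0 ≤ L ^ 3 := by positivity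
  have hE2 : 8 * L ^ 3 * (6 / D ^ (1 / 12 : ℝ)) ≤ κ / 4 * (w / s) := by
    have h1 : 8 * L ^ 3 * (6 / D ^ (1 / 12 : ℝ)) = 48 * L ^ 3 / D ^ (1 / 12 : ℝ) := by ring
    rw [h1, div_le_iff₀ (hpos _)]
    have h2 : κ / 4 * (w / s) * D ^ (1 / 12 : ℝ) = 48 * (κ * w / (s * 192) * D ^ (1 / 12 : ℝ)) := by
      field_simp
      ring
    rw [h2]
    linarith
  have hE3 : 8 * L ^ 3 * (Q * ρ) ≤ κ / 4 * (w / s) := by
    have h1 : ρ ≤ 4 * L / D ^ κ' := by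
      rw [hρd, Real.rpow_neg hx0.le, ← div_eq_inv_mul]
      exact div_le_div_of_nonneg_right (by linarith) (hpos _).le
    have h2 : 8 * L ^ 3 * (Q * ρ) ≤ 8 * L ^ 3 * ((Q + 1) * (4 * L / D ^ κ')) := by
      refine mul_le_mul_of_nonneg_left ?_ (by positivity)
      exact mul_le_mul (by linarith) h1 hρ0 (by linarith)
    refine h2.trans ?_
    have h3 : 8 * L ^ 3 * ((Q + 1) * (4 * L / D ^ κ')) = 32 * (Q + 1) * L ^ 4 / D ^ κ' := by ring
    rw [h3, div_le_iff₀ (hpos _)]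
    have h4 : κ / 4 * (w / s) * D ^ κ' = 32 * (Q + 1) * (κ * w / (s * (128 * (Q + 1))) * D ^ κ') := by
      have : Q + 1 ≠ 0 := by linarith
      field_simp
      ring
    rw [h4]
    exact mul_le_mul_of_nonneg_left e5 (by linarith)
  have hE : (1 + Real.log ξ) ^ 3 * (6 * (d.divisors.card : ℝ) / (M0 : ℝ) + Q * ρ) ≤ κ / 2 * (w / s) := by
    have h0 : 0 ≤ 6 * (d.divisors.card : ℝ) / (M0 : ℝ) + Q * ρ := by positivity
    refine (mul_le_mul_of_nonneg_right hcube h0).trans ?_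
    have h1 : 8 * L ^ 3 * (6 * (d.divisors.card : ℝ) / (M0 : ℝ) + Q * ρ) ≤
        8 * L ^ 3 * (6 / D ^ (1 / 12 : ℝ)) + 8 * L ^ 3 * (Q * ρ) := by
      rw [← mul_add]
      exact mul_le_mul_of_nonneg_left (by linarith) (by positivity)
    refine h1.trans ?_
    linarith
  have hfin : (1 + κ) * (2 * w / (u - θ - κ)) = (1 + κ / 2) * (w / s) + κ / 2 * (w / s) := by
    have h1 : 2 * w / (u - θ - κ) = w / s := by
      have h2 : u - θ - κ = 2 * s := by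
        rw [hs]
        ring
      rw [h2]
      field_simp
    rw [h1]
    ring
  rw [hfin]
  exact add_le_add (hm1.trans hm2) hE

end Pool.Agent.Lib.MP_42948a_nt.SH
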