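import Pool.Agent.Lib.MP_42948a_nt.SH.C
import Pool.Agent.Lib.MP_42948a_nt.TP.Defs
import Pool.Agent.Lib.MP_42948a_nt.EK.B3
import Pool.Agent.Lib.MP_42948a_nt.BU.Main

/-!
# Selberg's upper bound for the primes in a window: `Sharp3` and `Sharp4`
-/

namespace Pool.Agent.Lib.MP_42948a_nt.SH

open Finset Pool.Agent.Lib.MP_42948a_nt.OA Pool.Agent.Lib.MP_42948a_nt.TQ Pool.Agent.Lib.MP_42948a_nt.TF

theorem sharp3 : TP.Sharp3 := by
  intro κ u w hκ hκ1 hu hw huw B
  obtain ⟨κ', hκ', d1, hb3⟩ := EK.b3 (κ / 4) (by linarith)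
  obtain ⟨d2, hd2⟩ := sharp_gen (1 / 3) κ u w κ' ((B : ℝ) ^ 2) (by norm_num) le_rfl hκ hκ1 hu hw huw hκ' (by positivity)
  refine ⟨max d1 d2, fun d hd _ S hS hSB x => ?_⟩
  have h4 : (S.card : ℝ) ≤ B := by exact_mod_cast hSB
  exact hd2 d ((le_max_right _ _).trans hd) ∅ 0 (kr S) (EK.bh S)
    (ker_kr S hS ∅ 0 _ (fun χ hχ => absurd hχ (notMem_empty χ)) (pow_le_pow_left₀ (Nat.cast_nonneg _) h4 2))
    (fun χ hχ _ N hN => hb3 d ((le_max_left _ _).trans hd) χ hχ N hN) x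

open Classical in
/-- the kernel of a subgroup -/
private noncomputable def kH {d : ℕ} (H : Subgroup (ZMod d)ˣ) (g : (ZMod d)ˣ) : ℝ := if g ∈ H then (H.index : ℝ) else 0

open Classical in
/-- the characters trivial on `H` -/
private noncomputable def bH {d : ℕ} (H : Subgroup (ZMod d)ˣ) (χ : DirichletCharacter ℂ d) : ℝ :=
  if ∀ h ∈ H, ev χ h = 1 then 1 else 0

private theorem kH_coef {d : ℕ} [NeZero d] (H : Subgroup (ZMod d)ˣ) (χ : DirichletCharacter ℂ d) :
    SF (kH H) χ = (((Fintype.card (ZMod d)ˣ : ℝ) * bH H χ : ℝ) : ℂ) := by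
  classical
  unfold bH
  split_ifs with hχ
  · have h1 : SF (kH H) χ = ∑ g : (ZMod d)ˣ, if g ∈ H then ((H.index : ℝ) : ℂ) else 0 := by
      unfold SF kH
      refine sum_congr rfl fun g _ => ?_
      by_cases hg : g ∈ H
      · rw [if_pos hg, if_pos hg, hχ g hg, map_one, mul_one]
      · rw [if_neg hg, if_neg hg, Complex.ofReal_zero, zero_mul]
    rw [h1, ← sum_filter, sum_const, nsmul_eq_mul]
    have h2 : (univ.filter (fun g : (ZMod d)ˣ => g ∈ H)).card = Nat.card H := by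
      rw [Nat.card_eq_fintype_card, Fintype.card_subtype]
    have h3 := H.index_mul_card
    rw [Nat.card_eq_fintype_card (α := (ZMod d)ˣ)] at h3
    rw [h2, ← h3]
    push_cast
    ring
  · push Not at hχ
    obtain ⟨h, hh, hne⟩ := hχ
    have h1 : SF (kH H) χ = (starRingEnd ℂ) (ev χ h) * SF (kH H) χ := by
      unfold SF
      rw [mul_sum, ← Equiv.sum_comp (Equiv.mulLeft h) (fun g => ((kH H g : ℝ) : ℂ) * (starRingEnd ℂ) (ev χ g))]
      refine sum_congr rfl fun g _ => ?_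
      simp only [Equiv.coe_mulLeft]
      have h2 : kH H (h * g) = kH H g := by
        unfold kH
        rw [H.mul_mem_cancel_left hh]
      rw [h2, ev_mul, map_mul]
      ring
    have h2 : (1 - (starRingEnd ℂ) (ev χ h)) * SF (kH H) χ = 0 := by
      rw [sub_mul, one_mul, ← h1, sub_self]
    rcases mul_eq_zero.1 h2 with h3 | h3
    · exfalso
      apply hne
      have h4 : (starRingEnd ℂ) (ev χ h) = 1 := (sub_eq_zero.1 h3).symm
      rw [← Complex.conj_conj (ev χ h), h4, map_one]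
    · rw [h3, mul_zero, Complex.ofReal_zero]

private theorem kH_ker {d : ℕ} [NeZero d] (H : Subgroup (ZMod d)ˣ) (Q : ℝ) (hQ : (H.index : ℝ) ≤ Q) :
    Ker ∅ 0 Q (kH H) (bH H) where
  nonneg := fun g => by
    unfold kH
    split_ifs
    · exact Nat.cast_nonneg _
    · exact le_rfl
  coef := fun χ => kH_coef H χ
  b_nonneg := fun χ => by
    unfold bH
    split_ifs <;> norm_num
  b_le := fun χ => by
    unfold bH
    split_ifs <;> norm_num
  b_one := by
    unfold bH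
    rw [if_pos]
    intro h _
    unfold ev
    exact MulChar.one_apply_coe _
  big := fun χ hχ => absurd hχ (notMem_empty χ)
  wn := by
    have h1 := inversion (kH H) 1
    have h2 : ∀ χ : DirichletCharacter ℂ d, SF (kH H) χ * ev χ 1 = (((Fintype.card (ZMod d)ˣ : ℝ) * bH H χ : ℝ) : ℂ) := by
      intro χ
      rw [kH_coef, ev_one, mul_one]
    rw [sum_congr rfl fun χ _ => h2 χ, ← Complex.ofReal_sum, ← mul_sum] at h1
    have h3 : kH H 1 = H.index := by
      unfold kH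
      rw [if_pos H.one_mem]
    rw [h3] at h1
    have hφ : (0 : ℝ) < (Fintype.card (ZMod d)ˣ : ℝ) := by exact_mod_cast Fintype.card_pos
    have h4 : (Fintype.card (ZMod d)ˣ : ℝ) * ∑ χ : DirichletCharacter ℂ d, bH H χ = (Fintype.card (ZMod d)ˣ : ℝ) * (H.index : ℝ) := by
      exact_mod_cast h1
    rw [mul_left_cancel₀ hφ.ne' h4]
    exact hQ

/-- the order of a character trivial on `H` -/
private theorem ord_H {d : ℕ} [NeZero d] (H : Subgroup (ZMod d)ˣ) (N0 : ℕ) (hN0 : H.index ≤ N0) (χ : DirichletCharacter ℂ d)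
    (hχ : ∀ h ∈ H, ev χ h = 1) : χ ^ N0.factorial = 1 := by
  have h0 : 0 < H.index := Nat.pos_of_ne_zero Subgroup.FiniteIndex.index_ne_zero
  have h1 : H.index ∣ N0.factorial := Nat.dvd_factorial h0 hN0
  obtain ⟨k, hk⟩ := h1
  apply ev_inj
  intro a
  have h2 : ev (χ ^ N0.factorial) a = (ev χ a) ^ N0.factorial := by
    unfold ev
    exact MulChar.pow_apply_coe χ _ a
  have h3 : a ^ H.index ∈ H := Subgroup.pow_index_mem H a
  have h4 : ∀ n : ℕ, ev χ (a ^ n) = (ev χ a) ^ n := by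
    intro n
    induction n with
    | zero => rw [pow_zero, pow_zero, ev_one]
    | succ n ih => rw [pow_succ, pow_succ, ev_mul, ih]
  rw [h2, hk, pow_mul, ← h4, hχ _ h3, one_pow]
  unfold ev
  exact (MulChar.one_apply_coe _).symm

theorem sharp4 : TP.Sharp4 := by
  classical
  intro N0 κ u w hκ hκ1 hu hw huw
  obtain ⟨κ', hκ', d1, hb4⟩ := BU.burgess_main N0.factorial (Nat.factorial_pos N0) (κ / 4) (by linarith)
  obtain ⟨d2, hd2⟩ := sharp_gen (1 / 4) κ u w κ' (N0 : ℝ) le_rfl (by norm_num) hκ hκ1 hu hw huw hκ' (by positivity)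
  refine ⟨max d1 d2, fun d hd _ H hH z => ?_⟩
  obtain ⟨x, rfl⟩ := QuotientGroup.mk_surjective z
  have hK := kH_ker H (N0 : ℝ) (by exact_mod_cast hH)
  have h1 := hd2 d ((le_max_right _ _).trans hd) ∅ 0 (kH H) (bH H) hK (fun χ hχ hb N hN => by
    refine hb4 d ((le_max_left _ _).trans hd) χ hχ (ord_H H N0 hH χ ?_) N hN
    by_contra hne
    apply hb
    unfold bH
    rw [if_neg hne]) x
  refine le_trans (le_of_eq ?_) h1
  unfold sm
  rw [mul_sum, sum_filter]
  refine sum_congr rfl fun p _ => ?_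
  have h2 : ((ucl d p : (ZMod d)ˣ) : (ZMod d)ˣ ⧸ H) = (x : (ZMod d)ˣ ⧸ H) ↔ x * (ucl d p)⁻¹ ∈ H := by
    rw [QuotientGroup.eq, mul_comm]
  unfold kH
  by_cases h3 : x * (ucl d p)⁻¹ ∈ H
  · rw [if_pos (h2.2 h3), if_pos h3, mul_comm]
  · rw [if_neg (fun h => h3 (h2.1 h)), if_neg h3, mul_zero]

end Pool.Agent.Lib.MP_42948a_nt.SH
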